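import Mathlib
import Pool.Agent.Q147.FreeTukey

/-!
# MP_f56686_gt : the Tukey type of free topological groups over `ω`-narrow uniform spaces

There is (in ZFC) an `ω`-narrow uniform space `X` such that the neighbourhood filter of the identity
of the free topological group `F(X)` is not Tukey equivalent (not even Tukey below) `𝓤^ω`.
-/

namespace Pool.Agent.Results.MP_f56686_gt.TukeyTypeDiffers

open Set Filter Topology Pool.Agent.Q147.FreeTukey

/-! ### The definitions -/

/-- `(X, 𝓤)` is `ω`-narrow: for every entourage `U` there is a countable `A` such that the balls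
`B(a, U) = {y | (a, y) ∈ U}`, `a ∈ A`, cover `X`. -/
def OmegaNarrow (X : Type) [u : UniformSpace X] : Prop :=
  ∀ U ∈ @uniformity X u, ∃ A : Set X, A.Countable ∧ ∀ y, ∃ a ∈ A, (a, y) ∈ U

/-- The canonical map of the uniform space `X` into the free group on `X` is uniformly continuous
with respect to the two-sided uniformity of the group topology `t`. -/
def CanonicalUC (X : Type) [u : UniformSpace X] (t : TopologicalSpace (FreeGroup X)) : Prop :=
  ∀ V ∈ @nhds (FreeGroup X) t 1,
    {p : X × X | (FreeGroup.of p.1)⁻¹ * FreeGroup.of p.2 ∈ V ∧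
      FreeGroup.of p.1 * (FreeGroup.of p.2)⁻¹ ∈ V} ∈ @uniformity X u

/-- `t` is the topology of the free topological group `F(X, 𝓤)`: the finest group topology on the
free group on `X` for which the canonical map is uniformly continuous with respect to the
two-sided group uniformity. -/
def IsFreeTopology (X : Type) [UniformSpace X] (t : TopologicalSpace (FreeGroup X)) : Prop :=
  @IsTopologicalGroup (FreeGroup X) t _ ∧ CanonicalUC X t ∧
    ∀ s : TopologicalSpace (FreeGroup X), @IsTopologicalGroup (FreeGroup X) s _ →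
      CanonicalUC X s → t ≤ s

/-- `S` is cofinal in `P` with respect to the relation `le`. -/
def IsCofinalIn {P : Type} (le : P → P → Prop) (S : Set P) : Prop := ∀ p, ∃ s ∈ S, le p s

/-- `P ≤_T Q`: some map `Q → P` sends cofinal subsets of `Q` to cofinal subsets of `P`. -/
def TukeyLE {P Q : Type} (leP : P → P → Prop) (leQ : Q → Q → Prop) : Prop :=
  ∃ f : Q → P, ∀ S : Set Q, IsCofinalIn leQ S → IsCofinalIn leP (f '' S)

/-- The Tukey equivalence `P =_T Q`. -/
def TukeyEquiv {P Q : Type} (leP : P → P → Prop) (leQ : Q → Q → Prop) : Prop :=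
  TukeyLE leP leQ ∧ TukeyLE leQ leP

/-- The members of a filter, to be ordered by reverse inclusion. -/
abbrev Members {X : Type} (f : Filter X) : Type := {U : Set X // U ∈ f}

/-- Reverse inclusion on the members of a filter. -/
def revLE {X : Type} (f : Filter X) (U V : Members f) : Prop := V.1 ⊆ U.1

/-- The coordinatewise order on sequences of members of a filter. -/
def revLEω {X : Type} (f : Filter X) (U V : ℕ → Members f) : Prop := ∀ n, revLE f (U n) (V n)

/-! ### The matrices -/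

/-- The group of invertible real `2 × 2` matrices. -/
abbrev H : Type := (Matrix (Fin 2) (Fin 2) ℝ)ˣ

/-- diagonal matrices -/
noncomputable def dm (k : ℕ) : H where
  val := !![(2 : ℝ) ^ k, 0; 0, 1]
  inv := !![((2 : ℝ) ^ k)⁻¹, 0; 0, 1]
  val_inv := by
    ext i j
    fin_cases i <;> fin_cases j <;> simp
  inv_val := by
    ext i j
    fin_cases i <;> fin_cases j <;> simp

/-- unipotent matrices -/
def um (s : ℝ) : H where
  val := !![1, s; 0, 1]
  inv := !![1, -s; 0, 1]
  val_inv := by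
    ext i j
    fin_cases i <;> fin_cases j <;> simp
  inv_val := by
    ext i j
    fin_cases i <;> fin_cases j <;> simp

theorem dm_zero : dm 0 = 1 := by
  ext i j
  fin_cases i <;> fin_cases j <;> simp [dm]

theorem um_zero : um 0 = 1 := by
  ext i j
  fin_cases i <;> fin_cases j <;> simp [um]

theorem continuous_um : Continuous um := by
  rw [Units.continuous_iff]
  constructor
  · refine continuous_matrix ?_
    intro i j
    fin_cases i <;> fin_cases j <;> simp [um] <;> fun_prop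
  · refine continuous_matrix ?_
    intro i j
    fin_cases i <;> fin_cases j <;> simp [um] <;> fun_prop

theorem entry (k : ℕ) (s t : ℝ) :
    (dm k * (um s)⁻¹ * um t * (dm k)⁻¹).val 0 1 = 2 ^ k * (t - s) := by
  have h1 : (dm k * (um s)⁻¹ * um t * (dm k)⁻¹).val =
      !![(2 : ℝ) ^ k, 0; 0, 1] * !![1, -s; 0, 1] * !![1, t; 0, 1] *
        !![((2 : ℝ) ^ k)⁻¹, 0; 0, 1] := rfl
  rw [h1]
  simp
  ring

/-! ### The free topology exists -/

theorem isFreeTopology_sInf (X : Type) [u : UniformSpace X] :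
    IsFreeTopology X (sInf {s | @IsTopologicalGroup (FreeGroup X) s _ ∧ CanonicalUC X s}) := by
  refine ⟨topologicalGroup_sInf fun t ht => ht.1, ?_, fun s hs hs' => sInf_le ⟨hs, hs'⟩⟩
  intro V hV
  rw [nhds_sInf] at hV
  have key : ∀ g : X × X → FreeGroup X,
      (∀ s : TopologicalSpace (FreeGroup X), @IsTopologicalGroup (FreeGroup X) s _ →
        CanonicalUC X s → Tendsto g (@uniformity X u) (@nhds (FreeGroup X) s 1)) →
      Tendsto g (@uniformity X u) (⨅ t ∈ {s | @IsTopologicalGroup (FreeGroup X) s _ ∧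
        CanonicalUC X s}, @nhds (FreeGroup X) t 1) := by
    intro g hg
    rw [tendsto_iInf]
    intro s
    rw [tendsto_iInf]
    intro hs
    exact hg s hs.1 hs.2
  have k1 := key (fun p => (FreeGroup.of p.1)⁻¹ * FreeGroup.of p.2) (by
    intro s _ hs W hW
    rw [mem_map]
    exact mem_of_superset (hs W hW) fun p hp => hp.1)
  have k2 := key (fun p => FreeGroup.of p.1 * (FreeGroup.of p.2)⁻¹) (by
    intro s _ hs W hW
    rw [mem_map]
    exact mem_of_superset (hs W hW) fun p hp => hp.2)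
  exact inter_mem (k1 hV) (k2 hV)

/-! ### The space -/

variable {T : Type}

/-- a map that tends to `1` along `f` gives a continuous homomorphism -/
theorem canonicalUC_induced {X : Type} (f : Filter X) {G : Type} [Group G]
    [TopologicalSpace G] [IsTopologicalGroup G] (h : X → G) (hh : Tendsto h f (𝓝 1)) :
    @CanonicalUC X (unif f) (TopologicalSpace.induced (FreeGroup.lift h) inferInstance) := by
  intro V hV
  rw [nhds_induced, mem_comap] at hV
  obtain ⟨W, hW, hWV⟩ := hV
  rw [map_one] at hW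
  have c1 : Tendsto (fun p : G × G => p.1⁻¹ * p.2) (𝓝 1 ×ˢ 𝓝 1) (𝓝 1) := by
    have : Continuous (fun p : G × G => p.1⁻¹ * p.2) := by fun_prop
    have := this.tendsto (1, 1)
    rwa [nhds_prod_eq, inv_one, mul_one] at this
  have c2 : Tendsto (fun p : G × G => p.1 * p.2⁻¹) (𝓝 1 ×ˢ 𝓝 1) (𝓝 1) := by
    have : Continuous (fun p : G × G => p.1 * p.2⁻¹) := by fun_prop
    have := this.tendsto (1, 1)
    rwa [nhds_prod_eq, inv_one, mul_one] at this
  have h12 := inter_mem (mem_map.1 (c1 hW)) (mem_map.1 (c2 hW))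
  obtain ⟨A, hA, B, hB, hAB⟩ := mem_prod_iff.1 h12
  refine mem_unif.2 ⟨h ⁻¹' (A ∩ B), hh (inter_mem hA hB), ?_⟩
  rintro ⟨x, y⟩ hxy
  have h1 : (1 : G) ∈ W := mem_of_mem_nhds hW
  rcases hxy with hxy | ⟨hx, hy⟩
  · have hxy' : x = y := hxy
    subst hxy'
    constructor
    · apply hWV
      change FreeGroup.lift h ((FreeGroup.of x)⁻¹ * FreeGroup.of x) ∈ W
      rwa [inv_mul_cancel, map_one]
    · apply hWV
      change FreeGroup.lift h (FreeGroup.of x * (FreeGroup.of x)⁻¹) ∈ W
      rwa [mul_inv_cancel, map_one]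
  · have hm : (h x, h y) ∈ A ×ˢ B := ⟨hx.1, hy.2⟩
    have := hAB hm
    constructor
    · apply hWV
      change FreeGroup.lift h ((FreeGroup.of x)⁻¹ * FreeGroup.of y) ∈ W
      rw [map_mul, map_inv, FreeGroup.lift_apply_of, FreeGroup.lift_apply_of]
      exact this.1
    · apply hWV
      change FreeGroup.lift h (FreeGroup.of x * (FreeGroup.of y)⁻¹) ∈ W
      rw [map_mul, map_inv, FreeGroup.lift_apply_of, FreeGroup.lift_apply_of]
      exact this.2

theorem mem_nhds_of_free {X : Type} (f : Filter X) {G : Type} [Group G]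
    [TopologicalSpace G] [IsTopologicalGroup G] (h : X → G) (hh : Tendsto h f (𝓝 1))
    {t : TopologicalSpace (FreeGroup X)} (ht : @IsFreeTopology X (unif f) t) {W : Set G}
    (hW : W ∈ 𝓝 (1 : G)) : FreeGroup.lift h ⁻¹' W ∈ @nhds (FreeGroup X) t 1 := by
  have h1 := ht.2.2 (TopologicalSpace.induced (FreeGroup.lift h) inferInstance)
    (topologicalGroup_induced _) (canonicalUC_induced f h hh)
  apply nhds_mono h1
  rw [nhds_induced, map_one]
  exact preimage_mem_comap hW

/-- the map from the space to the matrix group -/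
noncomputable def hm (v : T → ℕ) : Pt T → H
  | Pt.left t => dm (v t)
  | Pt.nat n => um ((1 / 2 : ℝ) ^ n)

theorem tendsto_hm (v : T → ℕ) (C : Set T) (hC : C.Countable) (hv : ∀ t, t ∉ C → v t = 0) :
    Tendsto (hm v) (bigF T) (𝓝 1) := by
  intro W hW
  have hu : Tendsto (fun n : ℕ => um ((1 / 2 : ℝ) ^ n)) atTop (𝓝 1) := by
    have h1 : Tendsto (fun n : ℕ => (1 / 2 : ℝ) ^ n) atTop (𝓝 0) :=
      tendsto_pow_atTop_nhds_zero_of_lt_one (by norm_num) (by norm_num)
    have h2 := (continuous_um.tendsto 0).comp h1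
    rwa [um_zero] at h2
  refine ⟨hC.mono ?_, ?_⟩
  · intro t ht
    by_contra htC
    apply ht
    change dm (v t) ∈ W
    rw [hv t htC, dm_zero]
    exact mem_of_mem_nhds hW
  · have h1 := hu.eventually_mem hW
    rw [← Nat.cofinite_eq_atTop] at h1
    exact h1

theorem omegaNarrow_bigF : @OmegaNarrow (Pt ℝ) (unif (bigF ℝ)) := by
  intro U hU
  obtain ⟨F, ⟨h1, h2⟩, h⟩ := mem_unif.1 hU
  obtain ⟨x₀, hx₀⟩ : ∃ n : ℕ, Pt.nat n ∈ F := by
    by_contra! hcon
    exact infinite_univ (h2.subset fun n _ => hcon n)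
  refine ⟨(Pt.left '' {t | Pt.left t ∉ F}) ∪ (Pt.nat '' {n : ℕ | Pt.nat n ∉ F}) ∪ {Pt.nat x₀},
    ((h1.image _).union (h2.countable.image _)).union (countable_singleton _), ?_⟩
  intro y
  by_cases hy : y ∈ F
  · exact ⟨Pt.nat x₀, Or.inr rfl, h (Or.inr ⟨hx₀, hy⟩)⟩
  · refine ⟨y, Or.inl ?_, h (Or.inl rfl)⟩
    cases y with
    | left t => exact Or.inl ⟨t, hy, rfl⟩
    | nat n => exact Or.inr ⟨n, hy, rfl⟩

/-- The topology is Hausdorff. -/
theorem t2_of_free {t : TopologicalSpace (FreeGroup (Pt ℝ))}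
    (ht : @IsFreeTopology (Pt ℝ) (unif (bigF ℝ)) t) : @T2Space _ t := by
  classical
  let _ := t
  have _ : IsTopologicalGroup (FreeGroup (Pt ℝ)) := ht.1
  apply IsTopologicalGroup.t2Space_of_one_sep
  intro w hw
  -- the letters of `w`
  let S : Set (Pt ℝ) := {x | ∃ b, (x, b) ∈ w.toWord}
  have hS : S.Finite := by
    refine ((w.toWord.toFinset.finite_toSet).image Prod.fst).subset ?_
    rintro x ⟨b, hb⟩
    exact ⟨(x, b), by simpa using hb, rfl⟩
  have hSF : Sᶜ ∈ bigF ℝ := by
    constructor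
    · have h1 : (Pt.left ⁻¹' S : Set ℝ).Finite := hS.preimage (by
        intro a _ b _ h
        injection h)
      exact h1.countable.mono fun a ha => not_not.1 ha
    · have h1 : (Pt.nat ⁻¹' S : Set ℕ).Finite := hS.preimage (by
        intro a _ b _ h
        injection h)
      exact h1.subset fun a ha => not_not.1 ha
  let h : Pt ℝ → FreeGroup (Pt ℝ) := fun x => if x ∈ S then FreeGroup.of x else 1
  have hw' : FreeGroup.lift h w = w := by
    have h1 : FreeGroup.lift h (FreeGroup.mk w.toWord) =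
        FreeGroup.lift FreeGroup.of (FreeGroup.mk w.toWord) := by
      rw [FreeGroup.lift_mk, FreeGroup.lift_mk]
      congr 1
      apply List.map_congr_left
      rintro ⟨x, b⟩ hx
      have hxS : x ∈ S := ⟨b, hx⟩
      have : h x = FreeGroup.of x := if_pos hxS
      simp only [this]
    rw [FreeGroup.mk_toWord] at h1
    rw [h1, FreeGroup.lift_of_apply]
  refine ⟨FreeGroup.lift h ⁻¹' {1}, ?_, ?_⟩
  · refine @mem_nhds_of_free (Pt ℝ) (bigF ℝ) (FreeGroup (Pt ℝ)) _ ⊥
      (by let _ : TopologicalSpace (FreeGroup (Pt ℝ)) := ⊥; have _ : DiscreteTopology (FreeGroup (Pt ℝ)) := ⟨rfl⟩; infer_instance) h ?_ t ht {1} ?_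
    · have h2 : Tendsto h (bigF ℝ) (pure 1) := by
        rw [tendsto_pure]
        exact mem_of_superset hSF fun x hx => if_neg hx
      exact h2.mono_right (@pure_le_nhds _ ⊥ 1)
    · let _ : TopologicalSpace (FreeGroup (Pt ℝ)) := ⊥
      have _ : DiscreteTopology (FreeGroup (Pt ℝ)) := ⟨rfl⟩
      exact (isOpen_discrete _).mem_nhds rfl
  · rw [mem_preimage, hw']
    exact hw

/-- For the uniform space on `ℝ ⊔ ℕ` defined above, `𝓝 1` is not Tukey below `𝓤^ω`. -/
theorem main {t : TopologicalSpace (FreeGroup (Pt ℝ))}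
    (ht : @IsFreeTopology (Pt ℝ) (unif (bigF ℝ)) t) :
    ¬ TukeyLE (revLE (@nhds _ t 1)) (revLEω (@uniformity (Pt ℝ) (unif (bigF ℝ)))) := by
  rintro ⟨θ, hθ⟩
  -- the Tukey map in the other direction
  have key : ∀ V : Members (@nhds _ t 1), ∃ q : ℕ → Members (@uniformity (Pt ℝ) (unif (bigF ℝ))),
      ∀ u, revLEω _ q u → revLE _ V (θ u) := by
    intro V
    by_contra! hcon
    have hcof : IsCofinalIn (revLEω (@uniformity (Pt ℝ) (unif (bigF ℝ))))
        {u | ¬ revLE _ V (θ u)} := by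
      intro q
      obtain ⟨u, hu, hu'⟩ := hcon q
      exact ⟨u, hu', hu⟩
    obtain ⟨_, ⟨u, hu, rfl⟩, h⟩ := hθ _ hcof V
    exact hu h
  choose ψ hψ using key
  -- the neighbourhoods
  let W : Set H := {g | |g.val 0 1| < 1}
  have hW : W ∈ 𝓝 (1 : H) := by
    have h1 : Continuous fun g : H => |g.val 0 1| := by
      have : Continuous fun g : H => g.val := Units.continuous_val
      fun_prop
    have h2 : IsOpen W := isOpen_lt h1 continuous_const
    apply h2.mem_nhds
    change |(1 : Matrix (Fin 2) (Fin 2) ℝ) 0 1| < 1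
    simp
  let V : Cond ℝ → Members (@nhds _ t 1) := fun p =>
    ⟨FreeGroup.lift (hm p.val) ⁻¹' W,
      mem_nhds_of_free (bigF ℝ) (hm p.val) (tendsto_hm p.val p.dom p.ctbl p.off) ht hW⟩
  have hent : ∀ (p : Cond ℝ) (i : ℕ), ∃ F ∈ bigF ℝ, ent F ⊆ (ψ (V p) i).1 := fun p i =>
    mem_unif.1 (ψ (V p) i).2
  choose F hF hFsub using hent
  have hN : ∀ (p : Cond ℝ) (i : ℕ), ∃ N : ℕ, ∀ n, N ≤ n → Pt.nat n ∈ F p i := by
    intro p i
    obtain ⟨N, hN⟩ := (hF p i).2.bddAbove
    refine ⟨N + 1, fun n hn => ?_⟩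
    by_contra hcon
    exact absurd (hN hcon) (not_le.2 hn)
  choose N hN using hN
  obtain ⟨ξ, p, g, hξ, hg⟩ := fusion (fun p i => N p i)
  let C : Set ℝ := ⋃ k, ⋃ i, {t | Pt.left t ∉ F (p k) i}
  have hC : C.Countable := countable_iUnion fun k => countable_iUnion fun i => (hF (p k) i).1
  let G : ℕ → Set (Pt ℝ) := fun i => (Pt.left '' Cᶜ) ∪ (Pt.nat '' {n | g i ≤ n})
  have hG : ∀ i, G i ∈ bigF ℝ := by
    intro i
    refine ⟨hC.mono ?_, (finite_lt_nat (g i)).subset ?_⟩
    · intro t ht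
      by_contra hcon
      exact ht (Or.inl ⟨t, hcon, rfl⟩)
    · intro n hn
      by_contra hcon
      have hn' : g i ≤ n := not_lt.1 hcon
      exact hn (Or.inr ⟨n, hn', rfl⟩)
  have hGF : ∀ k i, G i ⊆ F (p k) i := by
    rintro k i _ (⟨t, ht, rfl⟩ | ⟨n, hn, rfl⟩)
    · by_contra hcon
      exact ht (mem_iUnion.2 ⟨k, mem_iUnion.2 ⟨i, hcon⟩⟩)
    · exact hN _ _ n ((hg k i).trans hn)
  let u : ℕ → Members (@uniformity (Pt ℝ) (unif (bigF ℝ))) := fun i =>
    ⟨ent (G i), mem_unif.2 ⟨G i, hG i, subset_rfl⟩⟩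
  have hu : ∀ k, revLE _ (V (p k)) (θ u) := fun k =>
    hψ (V (p k)) u fun i => (ent_mono (hGF k i)).trans (hFsub (p k) i)
  -- conjugation
  have hconj : {w : FreeGroup (Pt ℝ) | FreeGroup.of (Pt.left ξ) * w * (FreeGroup.of (Pt.left ξ))⁻¹ ∈
      (θ u).1} ∈ @nhds _ t 1 := by
    let _ := t
    have _ : IsTopologicalGroup (FreeGroup (Pt ℝ)) := ht.1
    have h1 : Continuous fun w : FreeGroup (Pt ℝ) =>
        FreeGroup.of (Pt.left ξ) * w * (FreeGroup.of (Pt.left ξ))⁻¹ := by fun_prop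
    have h2 := h1.tendsto 1
    rw [mul_one, mul_inv_cancel] at h2
    exact h2 (θ u).2
  obtain ⟨E, hE, hEsub⟩ := mem_unif.1 (ht.2.1 _ hconj)
  obtain ⟨M, hM⟩ := hE.2.bddAbove
  have hmem : ∀ n, M < n → Pt.nat n ∈ E := by
    intro n hn
    by_contra hcon
    exact absurd (hM hcon) (not_le.2 hn)
  have h3 := (hEsub (show (Pt.nat (M + 1), Pt.nat (M + 2)) ∈ ent E from
    Or.inr ⟨hmem _ (by omega), hmem _ (by omega)⟩)).1
  have h4 := hu (M + 2) h3
  have h5 : |(FreeGroup.lift (hm (p (M + 2)).val) (FreeGroup.of (Pt.left ξ) *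
      ((FreeGroup.of (Pt.nat (M + 1)))⁻¹ * FreeGroup.of (Pt.nat (M + 2))) *
        (FreeGroup.of (Pt.left ξ))⁻¹)).val 0 1| < 1 := h4
  rw [map_mul, map_mul, map_mul, map_inv, map_inv, FreeGroup.lift_apply_of,
    FreeGroup.lift_apply_of, FreeGroup.lift_apply_of] at h5
  have h6 : hm (p (M + 2)).val (Pt.left ξ) = dm (M + 2) := by
    change dm ((p (M + 2)).val ξ) = _
    rw [hξ]
  rw [h6] at h5
  have h7 := entry (M + 2) ((1 / 2 : ℝ) ^ (M + 1)) ((1 / 2 : ℝ) ^ (M + 2))
  rw [mul_assoc (dm (M + 2))] at h7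
  change |(dm (M + 2) * ((um ((1 / 2 : ℝ) ^ (M + 1)))⁻¹ * um ((1 / 2 : ℝ) ^ (M + 2))) *
    (dm (M + 2))⁻¹).val 0 1| < 1 at h5
  rw [h7] at h5
  have h8 : (2 : ℝ) ^ (M + 2) * ((1 / 2 : ℝ) ^ (M + 2) - (1 / 2 : ℝ) ^ (M + 1)) = -1 := by
    rw [mul_sub, ← mul_pow, pow_succ (2 : ℝ) (M + 1), mul_right_comm, ← mul_pow]
    norm_num
  rw [h8] at h5
  norm_num at h5

theorem separated_bigF (x y : Pt ℝ) (hxy : x ≠ y) :
    ∃ U ∈ @uniformity (Pt ℝ) (unif (bigF ℝ)), (x, y) ∉ U := by
  refine ⟨ent {x}ᶜ, mem_unif.2 ⟨{x}ᶜ, ⟨?_, ?_⟩, subset_rfl⟩, ?_⟩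
  · refine Set.Subsingleton.countable ?_
    intro a ha b hb
    have ha' : Pt.left a = x := not_not.1 ha
    have hb' : Pt.left b = x := not_not.1 hb
    have := ha'.trans hb'.symm
    injection this
  · refine Set.Subsingleton.finite ?_
    intro a ha b hb
    have ha' : Pt.nat a = x := not_not.1 ha
    have hb' : Pt.nat b = x := not_not.1 hb
    have := ha'.trans hb'.symm
    injection this
  · rintro (h | h)
    · exact hxy h
    · exact h.1 rfl

/-- There is a Hausdorff `ω`-narrow uniform space `(X, 𝓤)` such that the neighbourhood filter of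
the identity of the free topological group `F(X, 𝓤)` (which exists and is Hausdorff), ordered by
reverse inclusion, is not Tukey equivalent to `𝓤^ω`; in fact it is not Tukey below `𝓤^ω`. -/
theorem result : ∃ (X : Type) (_ : UniformSpace X) (t : TopologicalSpace (FreeGroup X)),
    OmegaNarrow X ∧ (∀ x y : X, x ≠ y → ∃ U ∈ uniformity X, (x, y) ∉ U) ∧
      IsFreeTopology X t ∧ @T2Space (FreeGroup X) t ∧
      ¬ TukeyLE (revLE (@nhds _ t 1)) (revLEω (uniformity X)) ∧
      ¬ TukeyEquiv (revLE (@nhds _ t 1)) (revLEω (uniformity X)) := by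
  have h := @isFreeTopology_sInf (Pt ℝ) (unif (bigF ℝ))
  exact ⟨Pt ℝ, unif (bigF ℝ), _, omegaNarrow_bigF, separated_bigF, h, t2_of_free h, main h,
    fun h' => main h h'.1⟩

end Pool.Agent.Results.MP_f56686_gt.TukeyTypeDiffers
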